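import Pool.Agent.J6H84.TS.Stm

set_option autoImplicit false

/-! # TS-ROT: a finite `p`-group acting on `p` points acts by rotations -/

namespace Pool.Agent.J6H46.TS.Rot

open Pool.Agent.J6H84.TS

theorem main : S_Rot := by
  classical
  intro p hp P _ _ hP ρ
  have hpp : p.Prime := hp.out
  have hppos : 0 < p := hpp.pos
  have hR : IsPGroup p ρ.range := hP.of_surjective ρ.rangeRestrict ρ.rangeRestrict_surjective
  obtain ⟨k, hk⟩ := (IsPGroup.iff_card).1 hR
  have hdvd : Nat.card ρ.range ∣ p.factorial := by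
    have h := Subgroup.card_subgroup_dvd_card ρ.range
    rwa [Nat.card_eq_fintype_card (α := Equiv.Perm (Fin p)), Fintype.card_perm, Fintype.card_fin] at h
  have hk1 : k ≤ 1 := by
    by_contra hc
    push Not at hc
    have h1 : p ^ 2 ∣ p.factorial := (pow_dvd_pow p hc).trans (hk ▸ hdvd)
    have h2 : p.factorial = p * (p - 1).factorial := (Nat.mul_factorial_pred hpp.ne_zero).symm
    rw [h2, pow_two] at h1
    have h3 : p ∣ (p - 1).factorial := Nat.dvd_of_mul_dvd_mul_left hppos h1
    have h4 := (hpp.dvd_factorial).1 h3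
    omega
  rcases Nat.lt_or_ge k 1 with hk0 | hk0
  · -- trivial action
    have hk00 : k = 0 := by omega
    rw [hk00, pow_zero] at hk
    have hbot : ρ.range = ⊥ := Subgroup.eq_bot_of_card_eq _ hk
    refine ⟨(ZMod.finEquiv p).toEquiv, fun _ => 0, fun σ s => ?_⟩
    have h1 : ρ σ ∈ ρ.range := ⟨σ, rfl⟩
    rw [hbot, Subgroup.mem_bot] at h1
    rw [h1, add_zero]
    rfl
  · have hk11 : k = 1 := by omega
    rw [hk11, pow_one] at hk
    have hfin : Finite ρ.range := inferInstance
    obtain ⟨g0, hg0⟩ : ∃ g0 : ρ.range, g0 ≠ 1 := by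
      by_contra hc
      push Not at hc
      have : Nat.card ρ.range = 1 := by
        rw [Nat.card_eq_one_iff_unique]
        exact ⟨⟨fun a b => by rw [hc a, hc b]⟩, ⟨1⟩⟩
      rw [hk] at this
      exact hpp.one_lt.ne' this
    have hord0 : orderOf g0 = p := by
      have h1 : orderOf g0 ∣ p := (orderOf_dvd_natCard g0).trans (dvd_of_eq hk)
      rcases (Nat.dvd_prime hpp).1 h1 with h2 | h2
      · exact absurd (orderOf_eq_one_iff.1 h2) hg0
      · exact h2
    obtain ⟨g, hg⟩ : ∃ g : Equiv.Perm (Fin p), g = g0.1 := ⟨_, rfl⟩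
    have hord : orderOf g = p := by rw [hg, Subgroup.orderOf_coe]; exact hord0
    have hpow : ∀ σ, ∃ i : ℕ, ρ σ = g ^ i := by
      intro σ
      have h1 : (⟨ρ σ, ⟨σ, rfl⟩⟩ : ρ.range) ∈ Submonoid.powers g0 := mem_powers_of_prime_card (p := p) hk hg0
      obtain ⟨i, hi⟩ := h1
      refine ⟨i, ?_⟩
      have h2 := congrArg Subtype.val hi
      rw [hg]
      exact h2.symm
    have hcyc : g.IsCycle := Equiv.Perm.isCycle_of_prime_order'' (by rw [Fintype.card_fin]; exact hpp)
      (by rw [Fintype.card_fin]; exact hord)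
    have hsupp : g.support = Finset.univ := by
      rw [← Finset.card_eq_iff_eq_univ, ← hcyc.orderOf, hord, Fintype.card_fin]
    obtain ⟨s0, hs0⟩ : ∃ s0 : Fin p, s0 = ⟨0, hppos⟩ := ⟨_, rfl⟩
    have hmov : ∀ s : Fin p, g s ≠ s := fun s => by
      have : s ∈ g.support := by rw [hsupp]; exact Finset.mem_univ _
      exact Equiv.Perm.mem_support.1 this
    have hmod : ∀ i : ℕ, g ^ (i % p) = g ^ i := fun i => by
      have h := pow_mod_orderOf g i
      have h2 : i % orderOf g = i % p := congrArg (fun x => i % x) hord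
      rw [h2] at h
      exact h
    let e : ZMod p → Fin p := fun a => (g ^ a.val) s0
    have hsurj : Function.Surjective e := by
      intro s
      obtain ⟨i, hi⟩ := hcyc.exists_pow_eq (hmov s0) (hmov s)
      refine ⟨(i : ZMod p), ?_⟩
      show (g ^ ((i : ZMod p)).val) s0 = s
      rw [ZMod.val_natCast, hmod, hi]
    have hbij : Function.Bijective e := by
      rw [Fintype.bijective_iff_surjective_and_card]
      exact ⟨hsurj, by rw [ZMod.card, Fintype.card_fin]⟩
    choose i hi using hpow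
    refine ⟨(Equiv.ofBijective e hbij).symm, fun σ => (i σ : ZMod p), fun σ s => ?_⟩
    obtain ⟨a, ha⟩ := hsurj s
    rw [Equiv.symm_apply_eq]
    have h1 : (Equiv.ofBijective e hbij).symm s = a := by
      rw [Equiv.symm_apply_eq]
      exact ha.symm
    rw [h1, hi σ, ← ha]
    show (g ^ i σ) ((g ^ a.val) s0) = (g ^ (a + (i σ : ZMod p)).val) s0
    rw [ZMod.val_add, ZMod.val_natCast, Nat.add_mod_mod, hmod, ← Equiv.Perm.mul_apply, ← pow_add, add_comm]

end Pool.Agent.J6H46.TS.Rot
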